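import Mathlib
import Pool.Agent.L0h85.TreeD

/-!
# Every entropy of a one-dimensional matrix shift is the entropy of a tree-shift of finite type

Let `A` be a square `0`-`1` matrix with `X_A` nonempty, with (topological) entropy `ln ρ(A)`. There
is a tree-shift of finite type `X` (its forbidden blocks are `2`-blocks) whose entropy
`lim ln ln |B_n(X)| / n` exists and equals `ln ρ(A)`.

Construction: `d` is larger than the number of letters of `A`, which become (some of) the
directions `0, …, d - 1`. The alphabet is `none` together with the pairs `(b, ε)`, `b` a direction,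
`ε` a bit. A child `i` of a node labelled `(b, ε)` is labelled `(i, ε')`, with `ε'` free, if
`A b i = 1`, and `none` otherwise; the children of a node labelled `none` are labelled `none`. So
the number of free bits at the level `m` below a root `(b, ε)` is the number of `A`-paths with `m`
steps from `b`.
-/

open Filter Topology
open Pool.Agent.L0h85

namespace Pool.Agent.Results.MP_29bdbb_an.MatrixShiftEntropies

/-- Labelled trees: maps `Σ^* → 𝒜`, where `Σ = {0, …, d-1} = Fin d` and `Σ^* = List (Fin d)`. -/
abbrev LTree (d : ℕ) (𝒜 : Type) := List (Fin d) → 𝒜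

/-- `Δ_n`: the nodes `w` with `|w| ≤ n - 1`. -/
abbrev Delta (d n : ℕ) := {w : List (Fin d) // w.length < n}

/-- `n`-blocks: the maps `Δ_n → 𝒜`. -/
abbrev Block (d : ℕ) (𝒜 : Type) (n : ℕ) := Delta d n → 𝒜

/-- The `n`-block of the labelled tree `t` at the node `v`: `w ↦ t (v w)`. -/
def blockAt {d : ℕ} {𝒜 : Type} (t : LTree d 𝒜) (v : List (Fin d)) (n : ℕ) : Block d 𝒜 n :=
  fun w => t (v ++ w.1)

/-- The tree-shift `X_F` of the labelled trees in which no block of `F` occurs at any node. -/
def treeShift {d : ℕ} {𝒜 : Type} (F : Set (Σ n : ℕ, Block d 𝒜 n)) : Set (LTree d 𝒜) :=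
  {t | ∀ (v : List (Fin d)) (n : ℕ), (⟨n, blockAt t v n⟩ : Σ n : ℕ, Block d 𝒜 n) ∉ F}

/-- `B_n(X)`: the set of the `n`-blocks occurring in elements of `X`. -/
def blocks {d : ℕ} {𝒜 : Type} (X : Set (LTree d 𝒜)) (n : ℕ) : Set (Block d 𝒜 n) :=
  {u | ∃ t ∈ X, ∃ v : List (Fin d), blockAt t v n = u}

/-- The matrix shift `X_A`: the bi-infinite sequences `x` with `A (x i) (x (i+1)) = 1` for all
`i`. -/
def matrixShift {α : Type} (A : Matrix α α ℝ) : Set (ℤ → α) :=
  {x | ∀ i, A (x i) (x (i + 1)) = 1}

/-- The words of length `n` occurring in the points of `X`. -/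
def words {α : Type} (X : Set (ℤ → α)) (n : ℕ) : Set (List α) :=
  {w | ∃ x ∈ X, ∃ s : ℤ, w = List.ofFn (fun i : Fin n => x (s + (i : ℕ)))}

/-- For every `0`-`1` matrix `A` with `X_A` nonempty, the topological entropy
`lim (ln #words of length n)/n` of `X_A` is `ln ρ(A)`, with `ρ(A)` the spectral radius, and there
is a tree-shift of finite type `X_F` (`d ≥ 2`, finite alphabet, `F` a finite set of `2`-blocks)
such that `h(X_F) = lim ln ln |B_n(X_F)| / n` exists and equals `ln ρ(A)`. -/
theorem result {α : Type} [Fintype α] [DecidableEq α] (A : Matrix α α ℝ)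
    (hA : ∀ i j, A i j = 0 ∨ A i j = 1) (hX : (matrixShift A).Nonempty) :
    Tendsto (fun n : ℕ => Real.log ((words (matrixShift A) n).ncard : ℝ) / n) atTop
      (𝓝 (Real.log (spectralRadius ℂ (A.map (algebraMap ℝ ℂ))).toReal)) ∧
    ∃ (d : ℕ) (𝒜 : Type) (_ : Finite 𝒜) (F : Set (Σ n : ℕ, Block d 𝒜 n)),
      2 ≤ d ∧ F.Finite ∧ (∀ p ∈ F, p.1 = 2) ∧ (treeShift F).Nonempty ∧
      (∀ n, 1 ≤ n → 1 < (blocks (treeShift F) n).ncard) ∧
      Tendsto (fun n : ℕ => Real.log (Real.log ((blocks (treeShift F) n).ncard : ℝ)) / n) atTop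
        (𝓝 (Real.log (spectralRadius ℂ (A.map (algebraMap ℝ ℂ))).toReal)) := by
  classical
  obtain ⟨x0, hx0⟩ := hX
  have : Nonempty α := ⟨x0 0⟩
  have hX' : (TreeShift.matrixShift A).Nonempty := ⟨x0, hx0⟩
  have hP1 := fun m => TreeShift.one_le_P hA hX' m
  have hPr : ∀ m, 1 ≤ TreeShift.P A m := by
    intro m
    rw [← TreeShift.sum_chains_eq hA]
    exact_mod_cast hP1 m
  have hgrow := TreeShift.growth_P A (fun m => TreeShift.pow_nonneg' hA m) hPr
  set h := Real.log (spectralRadius ℂ (A.map (algebraMap ℝ ℂ))).toReal with hh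
  constructor
  · -- words
    obtain ⟨M, K, hMK⟩ := TreeShift.exists_paths_le A
    have hK : 0 < K := by
      rcases Nat.eq_zero_or_pos K with h0 | h0
      · have h1 := hMK 0
        rw [h0, zero_mul] at h1
        have h2 := hP1 (0 + M)
        omega
      · exact h0
    have hK' : (0:ℝ) < K := by exact_mod_cast hK
    have hw : ∀ n, TreeShift.P A (n + M) ≤ K * ((words (matrixShift A) (n+1)).ncard : ℝ) := by
      intro n
      rw [← TreeShift.sum_chains_eq hA]
      exact_mod_cast hMK n
    have hw' : ∀ n, ((words (matrixShift A) (n+1)).ncard : ℝ) ≤ TreeShift.P A n := by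
      intro n
      rw [← TreeShift.sum_chains_eq hA]
      exact_mod_cast TreeShift.words_le A n
    have hwpos : ∀ n, (0:ℝ) < ((words (matrixShift A) (n+1)).ncard : ℝ) := by
      intro n
      have := lt_of_lt_of_le (lt_of_lt_of_le one_pos (hPr (n + M))) (hw n)
      by_contra hcon
      push Not at hcon
      nlinarith
    rw [← tendsto_add_atTop_iff_nat 1]
    have hc0 : ∀ c : ℝ, Tendsto (fun n : ℕ => c / ((n : ℝ) + 1)) atTop (𝓝 0) := fun c =>
      ((tendsto_const_div_atTop_nhds_zero_nat c).comp (tendsto_add_atTop_nat 1)).congr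
        (fun n => by simp)
    have e3 : Tendsto (fun n : ℕ => (n : ℝ) / ((n : ℝ) + 1)) atTop (𝓝 1) :=
      tendsto_natCast_div_add_atTop 1
    have up : Tendsto (fun n : ℕ => Real.log (TreeShift.P A n) / ((n:ℝ) + 1)) atTop (𝓝 h) := by
      have e4 := hgrow.mul e3
      rw [mul_one] at e4
      refine e4.congr' ?_
      filter_upwards [eventually_gt_atTop 0] with n hn
      have hn' : (0:ℝ) < n := by exact_mod_cast hn
      field_simp
    have lo : Tendsto (fun n : ℕ => (Real.log (TreeShift.P A (n + M)) - Real.log K) / ((n:ℝ) + 1))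
        atTop (𝓝 h) := by
      have e5 := hgrow.comp (tendsto_add_atTop_nat M)
      have e6 : Tendsto (fun n : ℕ => ((n:ℝ) + M) / ((n:ℝ) + 1)) atTop (𝓝 1) := by
        have := e3.add (hc0 M)
        rw [add_zero] at this
        refine this.congr fun n => ?_
        rw [← add_div]
      have e7 := (e5.mul e6).sub (hc0 (Real.log K))
      rw [mul_one, sub_zero] at e7
      refine e7.congr' ?_
      filter_upwards [eventually_gt_atTop 0] with n hn
      have hn' : (0:ℝ) < n := by exact_mod_cast hn
      have hnM : (0:ℝ) < (n:ℝ) + M := by positivity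
      simp only [Function.comp]
      push_cast
      field_simp
    refine tendsto_of_tendsto_of_tendsto_of_le_of_le lo up ?_ ?_
    · intro n
      simp only
      push_cast
      have h1 : Real.log (TreeShift.P A (n + M)) - Real.log K ≤
          Real.log ((words (matrixShift A) (n+1)).ncard : ℝ) := by
        have h2 := Real.log_le_log (lt_of_lt_of_le one_pos (hPr (n + M))) (hw n)
        rw [Real.log_mul hK'.ne' (hwpos n).ne'] at h2
        linarith
      gcongr
    · intro n
      simp only
      push_cast
      have h1 := Real.log_le_log (hwpos n) (hw' n)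
      gcongr
  · -- the tree-shift
    let e : α → Fin (Fintype.card α + 1) := fun i => (Fintype.equivFin α i).castSucc
    have he : Function.Injective e := by
      intro i j hij
      exact (Fintype.equivFin α).injective (Fin.castSucc_injective _ hij)
    let R := TreeShift.Tr e A
    have hR1 : ∀ m, 1 ≤ ∑ b, (TreeShift.chains R m b).card := by
      intro m
      cases m with
      | zero => simp [TreeShift.card_chains_zero]
      | succ m => rw [TreeShift.sum_chains_tr e he A m]; exact hP1 (m+1)
    have hlim : Tendsto (fun m : ℕ => Real.log ((∑ b, (TreeShift.chains R m b).card : ℕ) : ℝ) / m)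
        atTop (𝓝 h) := by
      refine hgrow.congr' ?_
      filter_upwards [eventually_gt_atTop 0] with m hm
      obtain ⟨m', rfl⟩ : ∃ m', m = m' + 1 := ⟨m - 1, by omega⟩
      rw [TreeShift.sum_chains_tr e he A m', TreeShift.sum_chains_eq hA]
    have hent := TreeShift.entropy_of_rel R hR1 hlim
    refine ⟨Fintype.card α + 1, Option (Fin (Fintype.card α + 1) × Bool), inferInstance,
      TreeShift.forb R, ?_, TreeShift.forb_finite R, fun p hp => TreeShift.forb_size R hp,
      ⟨TreeShift.mk R (e (x0 0)) (fun _ => false), TreeShift.mk_mem R _ _⟩, hent.1, hent.2⟩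
    have : 0 < Fintype.card α := Fintype.card_pos
    omega

end Pool.Agent.Results.MP_29bdbb_an.MatrixShiftEntropies
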